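import Pool.Agent.Helper6.PNT

/-!
# Integers which no prime `q ≡ -1 mod p` divides exactly once

`sum_big` : the sum of `1 / q` over the primes `q ≡ a mod p` diverges.
`dens` : almost no `n` has the property `q ∣ n → q ^ 2 ∣ n` for all odd primes `q ≡ -1 mod p`.
-/

set_option autoImplicit false

namespace Pool.Agent.Helper88.AAO

open Finset Filter Topology

/-! ### the sum of the reciprocals of the primes of a progression -/

theorem sum_dyadic {p : ℕ} [NeZero p] {a : ZMod p} (ha : IsUnit a) :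
    ∃ c : ℝ, 0 < c ∧ ∃ J : ℕ, ∀ j : ℕ, J ≤ j →
      c / ((j : ℝ) + 1) ≤ ∑ q ∈ (Ioc (2 ^ j) (2 ^ (j + 1))).filter (fun q : ℕ => q.Prime ∧ (q : ZMod p) = a),
        (1 : ℝ) / q := by
  classical
  have h1 := (Pool.Agent.Helper6.theta_ap ha).comp tendsto_natCast_atTop_atTop
  set e : ℝ := 1 / (p.totient : ℝ) with he
  have he0 : 0 < e := by
    have : 0 < p.totient := Nat.totient_pos.2 (NeZero.pos p)
    positivity
  set T : ℕ → ℝ := fun x => ∑ q ∈ (Icc 1 x).filter (fun q : ℕ => q.Prime ∧ (q : ZMod p) = a), Real.log q with hT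
  have h2 : Tendsto (fun x : ℕ => T x / x) atTop (𝓝 e) := by
    refine h1.congr fun x => ?_
    simp [hT, Function.comp]
  obtain ⟨N₀, hN₀⟩ := Metric.tendsto_atTop.1 h2 (e / 10) (by positivity)
  refine ⟨e / 4, by positivity, N₀, fun j hj => ?_⟩
  have hjN : N₀ ≤ 2 ^ j := hj.trans (Nat.lt_two_pow_self).le
  have h3 := hN₀ (2 ^ j) hjN
  have h4 := hN₀ (2 ^ (j + 1)) (hjN.trans (Nat.pow_le_pow_right (by norm_num) (by omega)))
  rw [Real.dist_eq, abs_lt] at h3 h4
  have hX : (0 : ℝ) < ((2 ^ j : ℕ) : ℝ) := by positivity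
  have hX' : ((2 ^ (j + 1) : ℕ) : ℝ) = 2 * ((2 ^ j : ℕ) : ℝ) := by push_cast; ring
  set X : ℝ := ((2 ^ j : ℕ) : ℝ) with hXdef
  rw [hX'] at h4
  have h5 : T (2 ^ j) ≤ 11 / 10 * e * X := by
    have := (div_le_iff₀ hX).1 (by linarith : T (2 ^ j) / X ≤ 11 / 10 * e)
    linarith
  have h6 : 9 / 10 * e * (2 * X) ≤ T (2 ^ (j + 1)) := by
    have := (le_div_iff₀ (by positivity : (0 : ℝ) < 2 * X)).1 (by linarith : 9 / 10 * e ≤ T (2 ^ (j + 1)) / (2 * X))
    linarith
  have h7 : T (2 ^ (j + 1)) = T (2 ^ j) +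
      ∑ q ∈ (Ioc (2 ^ j) (2 ^ (j + 1))).filter (fun q : ℕ => q.Prime ∧ (q : ZMod p) = a), Real.log q := by
    rw [hT]
    dsimp only
    rw [← sum_union]
    · congr 1
      ext q
      simp only [mem_filter, mem_union, mem_Icc, mem_Ioc]
      have : (2 : ℕ) ^ j ≤ 2 ^ (j + 1) := Nat.pow_le_pow_right (by norm_num) (by omega)
      constructor
      · rintro ⟨h8, h9⟩
        by_cases h10 : q ≤ 2 ^ j
        · exact Or.inl ⟨⟨h8.1, h10⟩, h9⟩
        · exact Or.inr ⟨⟨by omega, h8.2⟩, h9⟩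
      · rintro (⟨h8, h9⟩ | ⟨h8, h9⟩)
        · exact ⟨⟨h8.1, by omega⟩, h9⟩
        · exact ⟨⟨by omega, h8.2⟩, h9⟩
    · rw [disjoint_left]
      intro q h8 h9
      simp only [mem_filter, mem_Icc, mem_Ioc] at h8 h9
      omega
  have hlog2 : Real.log 2 < 7 / 10 := by
    have := Real.log_two_lt_d9
    linarith
  have hlog2' : 0 < Real.log 2 := Real.log_pos (by norm_num)
  have h8 : ∑ q ∈ (Ioc (2 ^ j) (2 ^ (j + 1))).filter (fun q : ℕ => q.Prime ∧ (q : ZMod p) = a), Real.log q ≤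
      (∑ q ∈ (Ioc (2 ^ j) (2 ^ (j + 1))).filter (fun q : ℕ => q.Prime ∧ (q : ZMod p) = a), (1 : ℝ) / q) *
        (2 * X * (((j : ℝ) + 1) * Real.log 2)) := by
    rw [sum_mul]
    refine sum_le_sum fun q hq => ?_
    simp only [mem_filter, mem_Ioc] at hq
    have hq0 : (0 : ℝ) < q := by exact_mod_cast hq.2.1.pos
    have hq1 : (q : ℝ) ≤ 2 * X := by
      rw [← hX']
      exact_mod_cast hq.1.2
    have h9 : Real.log q ≤ ((j : ℝ) + 1) * Real.log 2 := by
      have h10 : Real.log q ≤ Real.log (((2 ^ (j + 1) : ℕ) : ℝ)) :=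
        Real.log_le_log hq0 (by exact_mod_cast hq.1.2)
      rw [show (((2 ^ (j + 1) : ℕ) : ℝ)) = (2 : ℝ) ^ (j + 1) by push_cast; rfl, Real.log_pow] at h10
      push_cast at h10
      exact h10
    have h10 : 1 ≤ 1 / (q : ℝ) * (2 * X) := by
      rw [one_div, inv_mul_eq_div, le_div_iff₀ hq0]
      linarith
    have h11 : 0 ≤ ((j : ℝ) + 1) * Real.log 2 := by positivity
    calc Real.log q ≤ 1 * (((j : ℝ) + 1) * Real.log 2) := by linarith
      _ ≤ (1 / (q : ℝ) * (2 * X)) * (((j : ℝ) + 1) * Real.log 2) := mul_le_mul_of_nonneg_right h10 h11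
      _ = _ := by ring
  set S := ∑ q ∈ (Ioc (2 ^ j) (2 ^ (j + 1))).filter (fun q : ℕ => q.Prime ∧ (q : ZMod p) = a), (1 : ℝ) / q
  have hj1 : (0 : ℝ) < (j : ℝ) + 1 := by positivity
  rw [div_le_iff₀ hj1]
  have h9 : 7 / 10 * e * X ≤ S * (2 * X * (((j : ℝ) + 1) * Real.log 2)) := by linarith
  have h10 : 7 / 10 * e ≤ S * (2 * (((j : ℝ) + 1) * Real.log 2)) := by
    have : 7 / 10 * e * X ≤ S * (2 * (((j : ℝ) + 1) * Real.log 2)) * X := by linarith
    exact le_of_mul_le_mul_right this hX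
  have hS : 0 ≤ S := sum_nonneg fun q _ => by positivity
  have h11 : S * (2 * (((j : ℝ) + 1) * Real.log 2)) ≤ S * ((j : ℝ) + 1) * (14 / 10) := by
    have : 0 ≤ S * ((j : ℝ) + 1) := by positivity
    nlinarith
  nlinarith

theorem sum_big {p : ℕ} [NeZero p] {a : ZMod p} (ha : IsUnit a) (y : ℕ) (M : ℝ) :
    ∃ F : Finset ℕ, (∀ q ∈ F, q.Prime ∧ (q : ZMod p) = a ∧ y < q) ∧ M ≤ ∑ q ∈ F, (1 : ℝ) / q := by
  classical
  obtain ⟨c, hc, J₀, hJ₀⟩ := sum_dyadic ha
  set J := max J₀ y with hJ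
  have h1 : ∀ k : ℕ, ∃ F : Finset ℕ, (∀ q ∈ F, q.Prime ∧ (q : ZMod p) = a ∧ y < q ∧ q ≤ 2 ^ (J + k)) ∧
      c * (∑ j ∈ range k, 1 / ((J : ℝ) + j + 1)) ≤ ∑ q ∈ F, (1 : ℝ) / q := by
    intro k
    induction k with
    | zero => exact ⟨∅, by simp, by simp⟩
    | succ k ih =>
      obtain ⟨F, hF, hF'⟩ := ih
      set F' := (Ioc (2 ^ (J + k)) (2 ^ (J + k + 1))).filter (fun q : ℕ => q.Prime ∧ (q : ZMod p) = a) with hF'def
      refine ⟨F ∪ F', ?_, ?_⟩
      · intro q hq
        rcases mem_union.1 hq with h2 | h2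
        · obtain ⟨h3, h4, h5, h6⟩ := hF q h2
          exact ⟨h3, h4, h5, h6.trans (Nat.pow_le_pow_right (by norm_num) (by omega))⟩
        · simp only [hF'def, mem_filter, mem_Ioc] at h2
          refine ⟨h2.2.1, h2.2.2, ?_, h2.1.2⟩
          have h3 : y < 2 ^ y := Nat.lt_two_pow_self
          have h4 : 2 ^ y ≤ 2 ^ (J + k) := Nat.pow_le_pow_right (by norm_num) (by omega)
          omega
      · rw [sum_union]
        · rw [sum_range_succ, mul_add]
          refine add_le_add hF' ?_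
          have h2 := hJ₀ (J + k) (by omega)
          push_cast at h2
          calc c * (1 / ((J : ℝ) + k + 1)) = c / ((J : ℝ) + k + 1) := by ring
            _ ≤ _ := h2
        · rw [disjoint_left]
          intro q h2 h3
          simp only [hF'def, mem_filter, mem_Ioc] at h3
          have := (hF q h2).2.2.2
          omega
  have h2 : Tendsto (fun k : ℕ => ∑ j ∈ range k, 1 / ((J : ℝ) + j + 1)) atTop atTop := by
    have h3 := Real.tendsto_sum_range_one_div_nat_succ_atTop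
    have h4 : ∀ k : ℕ, ∑ j ∈ range k, 1 / ((J : ℝ) + j + 1) =
        ∑ i ∈ range (J + k), (1 / ((i : ℝ) + 1)) - ∑ i ∈ range J, (1 / ((i : ℝ) + 1)) := by
      intro k
      rw [sum_range_add]
      push_cast
      ring
    have h5 : Tendsto (fun k : ℕ => ∑ i ∈ range (J + k), (1 / ((i : ℝ) + 1))) atTop atTop :=
      h3.comp (tendsto_atTop_mono (fun k => Nat.le_add_left k J) tendsto_id)
    refine (tendsto_atTop_add_const_right _ (-∑ i ∈ range J, (1 / ((i : ℝ) + 1))) h5).congr fun k => ?_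
    rw [h4]
    ring
  obtain ⟨k, hk⟩ := (h2.eventually (eventually_ge_atTop (M / c))).exists
  obtain ⟨F, hF, hF'⟩ := h1 k
  refine ⟨F, fun q hq => ⟨(hF q hq).1, (hF q hq).2.1, (hF q hq).2.2.1⟩, ?_⟩
  refine le_trans ?_ hF'
  rw [div_le_iff₀ hc] at hk
  linarith

/-! ### counting residues -/

/-- the residues modulo `a b` which satisfy a condition modulo `a` and one modulo `b` -/
theorem card_crt {a b : ℕ} (hab : a.Coprime b) (ha : 0 < a) (hb : 0 < b) (P R : ℕ → Prop)
    [DecidablePred P] [DecidablePred R] (hP : ∀ n, P (n % a) ↔ P n) (hR : ∀ n, R (n % b) ↔ R n) :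
    ((range (a * b)).filter fun n => P n ∧ R n).card =
      ((range a).filter P).card * ((range b).filter R).card := by
  classical
  rw [← card_product]
  refine card_bij (fun n _ => (n % a, n % b)) ?_ ?_ ?_
  · intro n hn
    simp only [mem_filter, mem_range, mem_product] at hn ⊢
    exact ⟨⟨Nat.mod_lt _ ha, (hP n).2 hn.2.1⟩, Nat.mod_lt _ hb, (hR n).2 hn.2.2⟩
  · intro n hn m hm h
    simp only [mem_filter, mem_range] at hn hm
    have h1 : n ≡ m [MOD a * b] :=
      (Nat.modEq_and_modEq_iff_modEq_mul hab).1 ⟨(Prod.mk.inj h).1, (Prod.mk.inj h).2⟩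
    have h2 := Nat.ModEq.eq_of_lt_of_lt h1 hn.1 hm.1
    exact h2
  · rintro ⟨r, s⟩ h
    simp only [mem_filter, mem_range, mem_product] at h
    obtain ⟨n, hn1, hn2⟩ := Nat.chineseRemainder hab r s
    have h1 : n % (a * b) % a = r := by
      rw [Nat.mod_mul_right_mod]
      rw [Nat.ModEq, Nat.mod_eq_of_lt h.1.1] at hn1
      exact hn1
    have h2 : n % (a * b) % b = s := by
      rw [Nat.mod_mul_left_mod]
      rw [Nat.ModEq, Nat.mod_eq_of_lt h.2.1] at hn2
      exact hn2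
    refine ⟨n % (a * b), ?_, by rw [h1, h2]⟩
    simp only [mem_filter, mem_range]
    refine ⟨Nat.mod_lt _ (Nat.mul_pos ha hb), ?_, ?_⟩
    · rw [← hP, h1]
      exact h.1.2
    · rw [← hR, h2]
      exact h.2.2

/-- `q ∣ n` implies `q ^ 2 ∣ n` -/
def Ok (q n : ℕ) : Prop := q ∣ n → q ^ 2 ∣ n

instance (q : ℕ) : DecidablePred (Ok q) := fun n => by unfold Ok; infer_instance

theorem ok_mod (q n : ℕ) : Ok q (n % q ^ 2) ↔ Ok q n := by
  unfold Ok
  have h1 : q ∣ n % q ^ 2 ↔ q ∣ n := (Nat.dvd_mod_iff (dvd_pow_self q (by norm_num)))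
  have h2 : q ^ 2 ∣ n % q ^ 2 ↔ q ^ 2 ∣ n := Nat.dvd_mod_iff dvd_rfl
  rw [h1, h2]

theorem card_ok {q : ℕ} (hq : q.Prime) : ((range (q ^ 2)).filter (Ok q)).card = q ^ 2 - (q - 1) := by
  classical
  have h1 : ((range (q ^ 2)).filter fun n => ¬ Ok q n).card = q - 1 := by
    rw [← Nat.card_Ico 1 q]
    refine (card_bij (fun i _ => q * i) ?_ ?_ ?_).symm
    · intro i hi
      simp only [mem_Ico] at hi
      simp only [mem_filter, mem_range, Ok]
      refine ⟨by rw [sq]; exact Nat.mul_lt_mul_of_pos_left hi.2 hq.pos, fun h => ?_⟩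
      have h2 := h (dvd_mul_right q i)
      rw [sq] at h2
      have h3 := Nat.dvd_of_mul_dvd_mul_left hq.pos h2
      exact absurd (Nat.le_of_dvd (by omega) h3) (by omega)
    · intro i _ j _ h
      exact Nat.eq_of_mul_eq_mul_left hq.pos h
    · intro n hn
      simp only [mem_filter, mem_range, Ok] at hn
      push Not at hn
      obtain ⟨h2, ⟨i, rfl⟩, h3⟩ := hn
      refine ⟨i, ?_, rfl⟩
      rw [mem_Ico]
      refine ⟨?_, ?_⟩
      · by_contra h4
        have h5 : i = 0 := by omega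
        subst h5
        exact h3 (by simp)
      · rw [sq] at h2
        exact Nat.lt_of_mul_lt_mul_left h2
  have h2 := card_filter_add_card_filter_not (s := range (q ^ 2)) (Ok q)
  rw [h1, card_range] at h2
  omega

/-- the number of residues which no prime of `F` divides exactly once -/
theorem card_all {F : Finset ℕ} (hF : ∀ q ∈ F, q.Prime) :
    (((range (∏ q ∈ F, q ^ 2)).filter fun n => ∀ q ∈ F, Ok q n).card : ℝ) =
      (∏ q ∈ F, (q : ℝ) ^ 2) * ∏ q ∈ F, (1 - ((q : ℝ) - 1) / (q : ℝ) ^ 2) := by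
  classical
  induction F using Finset.induction_on with
  | empty => simp
  | insert q F hq ih =>
    have hq' := hF q (mem_insert_self _ _)
    have ih' := ih fun r hr => hF r (mem_insert_of_mem hr)
    have h1 : (q ^ 2).Coprime (∏ r ∈ F, r ^ 2) := by
      refine Nat.Coprime.prod_right fun r hr => ?_
      refine Nat.Coprime.pow 2 2 ?_
      refine (Nat.coprime_primes hq' (hF r (mem_insert_of_mem hr))).2 ?_
      rintro rfl
      exact hq hr
    have h2 : ∀ n, (∀ r ∈ F, Ok r (n % ∏ r ∈ F, r ^ 2)) ↔ ∀ r ∈ F, Ok r n := by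
      intro n
      refine forall₂_congr fun r hr => ?_
      rw [← ok_mod r (n % ∏ r ∈ F, r ^ 2), Nat.mod_mod_of_dvd _ (dvd_prod_of_mem (fun r => r ^ 2) hr), ok_mod]
    have h3 : ((range (∏ r ∈ insert q F, r ^ 2)).filter fun n => ∀ r ∈ insert q F, Ok r n) =
        (range (q ^ 2 * ∏ r ∈ F, r ^ 2)).filter fun n => Ok q n ∧ ∀ r ∈ F, Ok r n := by
      rw [prod_insert hq]
      ext n
      simp only [mem_filter, mem_insert, forall_eq_or_imp]
    rw [h3, card_crt h1 (pow_pos hq'.pos 2)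
      (prod_pos fun r hr => pow_pos (hF r (mem_insert_of_mem hr)).pos 2) (Ok q) (fun n => ∀ r ∈ F, Ok r n)
      (ok_mod q) h2, card_ok hq', prod_insert hq, prod_insert hq]
    push_cast [Nat.cast_sub (show q - 1 ≤ q ^ 2 from (Nat.sub_le _ _).trans (Nat.le_self_pow (by norm_num) q)),
      Nat.cast_sub hq'.one_le]
    rw [ih']
    have h4 : (q : ℝ) ^ 2 ≠ 0 := by
      have : (0 : ℝ) < q := by exact_mod_cast hq'.pos
      positivity
    have h5 : (q : ℝ) ^ 2 * (1 - ((q : ℝ) - 1) / (q : ℝ) ^ 2) = (q : ℝ) ^ 2 - ((q : ℝ) - 1) := by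
      have : (q : ℝ) ≠ 0 := by exact_mod_cast hq'.ne_zero
      field_simp
    rw [← h5]
    ring

/-- a periodic condition -/
theorem card_periodic {Q : ℕ} (hQ : 0 < Q) (P : ℕ → Prop) [DecidablePred P] (hP : ∀ n, P (n % Q) ↔ P n)
    (N : ℕ) : ((range N).filter P).card ≤ (N / Q + 1) * ((range Q).filter P).card := by
  have h1 : ∀ k : ℕ, Nat.count P (k * Q) = k * Nat.count P Q := by
    intro k
    induction k with
    | zero => simp
    | succ k ih =>
      rw [Nat.succ_mul, Nat.count_add, ih, Nat.succ_mul]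
      congr 1
      rw [Nat.count_eq_card_filter_range, Nat.count_eq_card_filter_range]
      congr 1
      refine filter_congr fun n _ => ?_
      rw [← hP (k * Q + n), Nat.mul_add_mod_self_right, hP]
  have h2 : N ≤ (N / Q + 1) * Q := by
    have := Nat.lt_div_mul_add hQ (a := N)
    nlinarith
  calc ((range N).filter P).card ≤ ((range ((N / Q + 1) * Q)).filter P).card := by
        refine card_le_card (filter_subset_filter _ ?_)
        intro x hx
        rw [mem_range] at hx ⊢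
        omega
    _ = (N / Q + 1) * ((range Q).filter P).card := by
        rw [← Nat.count_eq_card_filter_range, h1, Nat.count_eq_card_filter_range]

/-- **Density zero.** Almost no `n` satisfies `q ∣ n → q ^ 2 ∣ n` for all primes `q > y` with
`q ≡ a mod p`. -/
theorem dens {p : ℕ} [NeZero p] {a : ZMod p} (ha : IsUnit a) (y : ℕ) {ε : ℝ} (hε : 0 < ε) :
    ∃ N₀ : ℕ, ∀ N : ℕ, N₀ ≤ N → ∀ A : Finset ℕ, (∀ n ∈ A, n < N ∧
      ∀ q : ℕ, q.Prime → (q : ZMod p) = a → y < q → q ∣ n → q ^ 2 ∣ n) → (A.card : ℝ) ≤ ε * N := by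
  classical
  obtain ⟨F, hF, hM⟩ := sum_big ha y (2 * Real.log (2 / ε))
  set Q : ℕ := ∏ q ∈ F, q ^ 2 with hQ
  have hQ0 : 0 < Q := prod_pos fun q hq => pow_pos (hF q hq).1.pos 2
  set c : ℕ := ((range Q).filter fun n => ∀ q ∈ F, Ok q n).card with hc
  have h1 : (c : ℝ) ≤ ε / 2 * Q := by
    have h2 := card_all (F := F) fun q hq => (hF q hq).1
    rw [← hQ, ← hc] at h2
    have h3 : ∏ q ∈ F, (1 - ((q : ℝ) - 1) / (q : ℝ) ^ 2) ≤ ε / 2 := by
      calc ∏ q ∈ F, (1 - ((q : ℝ) - 1) / (q : ℝ) ^ 2) ≤ ∏ q ∈ F, Real.exp (-(1 / 2 * (1 / (q : ℝ)))) := by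
            refine prod_le_prod (fun q hq => ?_) fun q hq => ?_
            · have h4 : (2 : ℝ) ≤ q := by exact_mod_cast (hF q hq).1.two_le
              rw [sub_nonneg, div_le_one (by positivity)]
              nlinarith
            · have h4 : (2 : ℝ) ≤ q := by exact_mod_cast (hF q hq).1.two_le
              have h5 : 1 / 2 * (1 / (q : ℝ)) ≤ ((q : ℝ) - 1) / (q : ℝ) ^ 2 := by
                rw [← mul_div_assoc, mul_one, div_le_div_iff₀ (by positivity) (by positivity)]
                nlinarith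
              have h6 := Real.add_one_le_exp (-(1 / 2 * (1 / (q : ℝ))))
              linarith
        _ = Real.exp (-(1 / 2 * ∑ q ∈ F, 1 / (q : ℝ))) := by
            rw [← Real.exp_sum, mul_sum, ← sum_neg_distrib]
        _ ≤ Real.exp (-Real.log (2 / ε)) := by
            refine Real.exp_le_exp.2 ?_
            linarith
        _ = ε / 2 := by
            rw [Real.exp_neg, Real.exp_log (by positivity), inv_div]
    rw [h2]
    have h4 : ((Q : ℕ) : ℝ) = ∏ q ∈ F, (q : ℝ) ^ 2 := by rw [hQ]; push_cast; rfl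
    rw [h4, mul_comm (ε / 2)]
    exact mul_le_mul_of_nonneg_left h3 (prod_nonneg fun q _ => by positivity)
  obtain ⟨N₀, hN₀⟩ := exists_nat_ge (2 * (c : ℝ) / ε)
  refine ⟨N₀, fun N hN A hA => ?_⟩
  have h2 : A.card ≤ (N / Q + 1) * c := by
    calc A.card ≤ ((range N).filter fun n => ∀ q ∈ F, Ok q n).card := by
          refine card_le_card fun n hn => ?_
          rw [mem_filter, mem_range]
          refine ⟨(hA n hn).1, fun q hq => ?_⟩
          exact (hA n hn).2 q (hF q hq).1 (hF q hq).2.1 (hF q hq).2.2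
      _ ≤ _ := by
          refine card_periodic hQ0 _ (fun n => ?_) N
          refine forall₂_congr fun r hr => ?_
          rw [← ok_mod r (n % Q), Nat.mod_mod_of_dvd _ (dvd_prod_of_mem (fun r => r ^ 2) hr), ok_mod]
  have h3 : (A.card : ℝ) ≤ ((N / Q : ℕ) + 1 : ℝ) * c := by exact_mod_cast h2
  have h4 : ((N / Q : ℕ) : ℝ) ≤ (N : ℝ) / Q := Nat.cast_div_le
  have hQ1 : (0 : ℝ) < Q := by exact_mod_cast hQ0
  have h5 : 2 * (c : ℝ) / ε ≤ N := hN₀.trans (by exact_mod_cast hN)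
  rw [div_le_iff₀ hε] at h5
  have h6 : ((N / Q : ℕ) : ℝ) * c ≤ ε / 2 * N := by
    calc ((N / Q : ℕ) : ℝ) * c ≤ (N : ℝ) / Q * (ε / 2 * Q) :=
          mul_le_mul h4 h1 (by positivity) (by positivity)
      _ = ε / 2 * N := by field_simp
  linarith

end Pool.Agent.Helper88.AAO
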