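import Pool.Agent.Helper88.AAO.Mann
import Pool.Agent.Helper88.AAO.Dens

/-!
# Almost all orders of difference sets in nilpotent groups

`almost_all` : for almost all `n` every nontrivial difference set of order `n` in a finite nilpotent group
`G` satisfies `gcd (|G|, M n) = 1`.
-/

set_option autoImplicit false

namespace Pool.Agent.Helper88.AAO

open Finset

/-- `n` is the order of a nontrivial difference set in a nilpotent group `G` with `gcd (|G|, M n) > 1` -/
def Bad (M n : ℕ) : Prop :=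
  ∃ (G : Type) (_ : Group G) (_ : Fintype G) (_ : DecidableEq G), Group.IsNilpotent G ∧
    ∃ (D : Finset G) (lam : ℕ), 1 < D.card ∧ D.card + 1 < Fintype.card G ∧
      (∀ g : G, g ≠ 1 → ((D ×ˢ D).filter (fun x => x.1 * x.2⁻¹ = g)).card = lam) ∧
      n = D.card - lam ∧ Nat.gcd (Fintype.card G) (M * n) ≠ 1

/-- a bad `n` is zero or fails the test at a prime -/
theorem bad_test {M n : ℕ} (hM : 0 < M) (hb : Bad M n) (hn : 0 < n) : ∃ p : ℕ, p.Prime ∧ (p ≤ M ∨ p ^ 2 ∣ n) ∧
    ∀ q : ℕ, q.Prime → (q : ZMod p) = -1 → max 2 p < q → q ∣ n → q ^ 2 ∣ n := by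
  obtain ⟨G, _, _, _, _, D, lam, h1, h2, hrep, hnd, hg⟩ := hb
  obtain ⟨p, hp, hpg⟩ := Nat.exists_prime_and_dvd hg
  have hpG : p ∣ Fintype.card G := hpg.trans (Nat.gcd_dvd_left _ _)
  have hpn : p ∣ M * n := hpg.trans (Nat.gcd_dvd_right _ _)
  have hnz : (n : ℤ) = (D.card : ℤ) - lam := by
    have : lam < D.card := by omega
    rw [hnd, Nat.cast_sub this.le]
  refine ⟨p, hp, ?_, ?_⟩
  · rcases hp.dvd_mul.1 hpn with h3 | h3
    · exact Or.inl (Nat.le_of_dvd hM h3)
    · right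
      have h4 := sq_dvd hp hpG D lam hrep hnz (by exact_mod_cast h3)
      exact_mod_cast h4
  · intro q hq hqp hlt hqn
    have h3 : q ≠ 2 := by have := le_max_left 2 p; omega
    have h4 : p ≠ q := by have := le_max_right 2 p; omega
    have h5 := mann hp hq h3 h4 hqp hpG D lam hrep hnz (by exact_mod_cast hqn)
    exact_mod_cast h5

/-- the multiples of large squares -/
theorem card_sq_mult (N P : ℕ) (hP : 0 < P) (A : Finset ℕ) (hA : ∀ n ∈ A, 0 < n ∧ n < N ∧ ∃ m : ℕ, P < m ∧ m ^ 2 ∣ n) :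
    (A.card : ℝ) ≤ N / P := by
  classical
  have h1 : A ⊆ (Ioc P N).biUnion fun m => (Icc 1 N).filter fun n => m ^ 2 ∣ n := by
    intro n hn
    obtain ⟨h2, h3, m, h4, h5⟩ := hA n hn
    rw [mem_biUnion]
    refine ⟨m, ?_, ?_⟩
    · rw [mem_Ioc]
      refine ⟨h4, ?_⟩
      have h6 := Nat.le_of_dvd h2 h5
      nlinarith
    · rw [mem_filter, mem_Icc]
      exact ⟨⟨h2, h3.le⟩, h5⟩
  have h2 : A.card ≤ ∑ m ∈ Ioc P N, N / m ^ 2 := by
    refine (card_le_card h1).trans (card_biUnion_le.trans (sum_le_sum fun m _ => ?_))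
    rw [show Icc 1 N = Ioc 0 N from rfl, Nat.Ioc_filter_dvd_card_eq_div]
  have h3 : (A.card : ℝ) ≤ ∑ m ∈ Ioc P N, (N : ℝ) / (m : ℝ) ^ 2 := by
    calc (A.card : ℝ) ≤ ((∑ m ∈ Ioc P N, N / m ^ 2 : ℕ) : ℝ) := by exact_mod_cast h2
      _ ≤ _ := by
        push_cast
        refine sum_le_sum fun m _ => ?_
        have := Nat.cast_div_le (α := ℝ) (m := N) (n := m ^ 2)
        push_cast at this
        exact this
  refine h3.trans ?_
  have h4 : ∀ K : ℕ, P ≤ K → ∑ m ∈ Ioc P K, (1 : ℝ) / (m : ℝ) ^ 2 ≤ 1 / P - 1 / K := by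
    intro K hK
    induction K, hK using Nat.le_induction with
    | base => simp
    | succ K hK ih =>
      have h5 : Ioc P (K + 1) = insert (K + 1) (Ioc P K) := by
        ext m
        simp only [mem_Ioc, mem_insert]
        omega
      rw [h5, sum_insert (by simp)]
      have h6 : (0 : ℝ) < K := by exact_mod_cast (show 0 < K by omega)
      have h7 : (1 : ℝ) / ((K + 1 : ℕ) : ℝ) ^ 2 ≤ 1 / K - 1 / ((K + 1 : ℕ) : ℝ) := by
        push_cast
        rw [div_sub_div _ _ (by positivity) (by positivity), div_le_div_iff₀ (by positivity) (by positivity)]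
        nlinarith
      linarith
  have h5 : ∑ m ∈ Ioc P N, (N : ℝ) / (m : ℝ) ^ 2 = N * ∑ m ∈ Ioc P N, (1 : ℝ) / (m : ℝ) ^ 2 := by
    rw [mul_sum]
    refine sum_congr rfl fun m _ => ?_
    ring
  rw [h5]
  by_cases hPN : P ≤ N
  · have h6 := h4 N hPN
    have h7 : (0 : ℝ) ≤ 1 / N := by positivity
    calc (N : ℝ) * ∑ m ∈ Ioc P N, (1 : ℝ) / (m : ℝ) ^ 2 ≤ N * (1 / P) :=
          mul_le_mul_of_nonneg_left (by linarith) (by positivity)
      _ = N / P := by ring
  · rw [Ioc_eq_empty (by omega)]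
    simp
    positivity

/-- **Almost all orders are good.** -/
theorem almost_all {M : ℕ} (hM : 0 < M) {ε : ℝ} (hε : 0 < ε) :
    ∃ N₀ : ℕ, ∀ N : ℕ, N₀ ≤ N → (Set.ncard {n : ℕ | n < N ∧ Bad M n} : ℝ) ≤ ε * N := by
  classical
  obtain ⟨P, hP⟩ := exists_nat_gt (max (3 / ε) M)
  have hP1 : 3 / ε < P := (le_max_left _ _).trans_lt hP
  have hP2 : M < P := by exact_mod_cast (le_max_right _ _).trans_lt hP
  have hP0 : 0 < P := by omega
  have hP' : (0 : ℝ) < P := by exact_mod_cast hP0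
  have hd : ∀ p : ℕ, ∃ N₀ : ℕ, 0 < p → ∀ N : ℕ, N₀ ≤ N → ∀ A : Finset ℕ, (∀ n ∈ A, n < N ∧
      ∀ q : ℕ, q.Prime → (q : ZMod p) = -1 → max 2 p < q → q ∣ n → q ^ 2 ∣ n) →
        (A.card : ℝ) ≤ ε / (3 * (P + 1)) * N := by
    intro p
    by_cases hp : 0 < p
    · have : NeZero p := ⟨hp.ne'⟩
      obtain ⟨N₀, h⟩ := dens (p := p) (a := -1) (isUnit_one.neg) (max 2 p) (show 0 < ε / (3 * ((P : ℝ) + 1)) by positivity)
      exact ⟨N₀, fun _ => h⟩
    · exact ⟨0, fun h => absurd h hp⟩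
  choose N₀ hN₀ using hd
  obtain ⟨N₁, hN₁⟩ := exists_nat_gt (3 / ε)
  refine ⟨max N₁ ((range (P + 1)).sup N₀), fun N hN => ?_⟩
  have hN1 : N₁ ≤ N := (le_max_left _ _).trans hN
  have hN2 : ∀ p ∈ range (P + 1), N₀ p ≤ N := fun p hp =>
    (Finset.le_sup hp).trans ((le_max_right _ _).trans hN)
  set B : Finset ℕ := (range N).filter fun n => Bad M n with hB
  have hBs : {n : ℕ | n < N ∧ Bad M n} = (B : Set ℕ) := by
    ext n
    simp [hB]
  rw [hBs, Set.ncard_coe_finset]
  -- the three parts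
  have hcover : B ⊆ ({0} ∪ ((range (P + 1)).filter fun p => 0 < p).biUnion fun p =>
      (range N).filter fun n => ∀ q : ℕ, q.Prime → (q : ZMod p) = -1 → max 2 p < q → q ∣ n → q ^ 2 ∣ n) ∪
      (range N).filter fun n => 0 < n ∧ ∃ m : ℕ, P < m ∧ m ^ 2 ∣ n := by
    intro n hn
    simp only [hB, mem_filter, mem_range] at hn
    rcases Nat.eq_zero_or_pos n with h0 | h0
    · simp [h0]
    obtain ⟨p, hp, h1, h2⟩ := bad_test hM hn.2 h0
    by_cases hpP : p ≤ P
    · refine mem_union_left _ (mem_union_right _ ?_)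
      rw [mem_biUnion]
      refine ⟨p, ?_, ?_⟩
      · simp only [mem_filter, mem_range]
        exact ⟨by omega, hp.pos⟩
      · simp only [mem_filter, mem_range]
        exact ⟨hn.1, h2⟩
    · refine mem_union_right _ ?_
      simp only [mem_filter, mem_range]
      refine ⟨hn.1, h0, p, by omega, ?_⟩
      rcases h1 with h1 | h1
      · omega
      · exact h1
  have h1 := card_le_card hcover
  have h2 : (B.card : ℝ) ≤ (1 + (((range (P + 1)).filter fun p => 0 < p).biUnion fun p =>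
      (range N).filter fun n => ∀ q : ℕ, q.Prime → (q : ZMod p) = -1 → max 2 p < q → q ∣ n → q ^ 2 ∣ n).card) +
      ((range N).filter fun n => 0 < n ∧ ∃ m : ℕ, P < m ∧ m ^ 2 ∣ n).card := by
    have h3 := h1.trans ((card_union_le _ _).trans (Nat.add_le_add_right (card_union_le _ _) _))
    rw [card_singleton] at h3
    exact_mod_cast h3
  have h3 : ((((range (P + 1)).filter fun p => 0 < p).biUnion fun p =>
      (range N).filter fun n => ∀ q : ℕ, q.Prime → (q : ZMod p) = -1 → max 2 p < q → q ∣ n → q ^ 2 ∣ n).card : ℝ) ≤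
      ε / 3 * N := by
    calc ((((range (P + 1)).filter fun p => 0 < p).biUnion fun p =>
      (range N).filter fun n => ∀ q : ℕ, q.Prime → (q : ZMod p) = -1 → max 2 p < q → q ∣ n → q ^ 2 ∣ n).card : ℝ)
        ≤ ∑ p ∈ (range (P + 1)).filter fun p => 0 < p, (((range N).filter fun n =>
            ∀ q : ℕ, q.Prime → (q : ZMod p) = -1 → max 2 p < q → q ∣ n → q ^ 2 ∣ n).card : ℝ) := by
          exact_mod_cast card_biUnion_le
      _ ≤ ∑ p ∈ (range (P + 1)).filter fun p => 0 < p, ε / (3 * (P + 1)) * N := by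
          refine sum_le_sum fun p hp => ?_
          rw [mem_filter] at hp
          refine hN₀ p hp.2 N (hN2 p hp.1) _ fun n hn => ?_
          rw [mem_filter, mem_range] at hn
          exact hn
      _ ≤ (P + 1) * (ε / (3 * (P + 1)) * N) := by
          rw [sum_const, nsmul_eq_mul]
          refine mul_le_mul_of_nonneg_right ?_ (by positivity)
          have := card_filter_le (range (P + 1)) fun p => 0 < p
          rw [card_range] at this
          exact_mod_cast this
      _ = ε / 3 * N := by field_simp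
  have h4 : (((range N).filter fun n => 0 < n ∧ ∃ m : ℕ, P < m ∧ m ^ 2 ∣ n).card : ℝ) ≤ N / P := by
    refine card_sq_mult N P hP0 _ fun n hn => ?_
    rw [mem_filter, mem_range] at hn
    exact ⟨hn.2.1, hn.1, hn.2.2⟩
  have h5 : (N : ℝ) / P ≤ ε / 3 * N := by
    rw [div_le_iff₀ hP']
    rw [div_lt_iff₀ hε] at hP1
    have : (0 : ℝ) ≤ N := by positivity
    nlinarith
  have h6 : (1 : ℝ) ≤ ε / 3 * N := by
    have h7 : 3 / ε < N := hN₁.trans_le (by exact_mod_cast hN1)
    rw [div_lt_iff₀ hε] at h7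
    linarith
  linarith

end Pool.Agent.Helper88.AAO
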