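import Mathlib

/-!
# Primes `q ≡ -1 mod p` in the order of a difference set, `p` a divisor of the order of the group

`corr_const` : if `f : ZMod p → ℤ` has correlation `n + L` at `0` and `L` elsewhere, `q ≡ -1 mod p` is a
prime and `q ∣ n`, then `f` is constant modulo `q`. `corr_sq` : then `q ^ 2 ∣ n` if `q` is odd.
`exists_hom_nil` : a finite nilpotent group whose order is divisible by `p` maps onto `ZMod p`.
`mann` : `q ∣ n` implies `q ^ 2 ∣ n` for difference sets of order `n` in such groups.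
-/

set_option autoImplicit false

namespace Pool.Agent.Helper88.AAO

open Finset

section

variable {p q : ℕ} [Fact p.Prime] [Fact q.Prime]

/-- the character sum of `f` -/
noncomputable def cs {K : Type*} [Field K] (ψ : AddChar (ZMod p) K) (f : ZMod p → ℤ) (j : ZMod p) : K :=
  ∑ i, (f i : K) * ψ (i * j)

theorem cs_frob {K : Type*} [Field K] [CharP K q] (ψ : AddChar (ZMod p) K) (f : ZMod p → ℤ) (j : ZMod p)
    (hq : (q : ZMod p) = -1) : cs ψ f j ^ q = cs ψ f (-j) := by
  have : ExpChar K q := ExpChar.prime (Fact.out : q.Prime)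
  have h1 : cs ψ f j ^ q = frobenius K q (cs ψ f j) := rfl
  rw [h1, cs, map_sum, cs]
  refine sum_congr rfl fun i _ => ?_
  rw [map_mul, map_intCast]
  congr 1
  rw [frobenius_def, ← AddChar.map_nsmul_eq_pow, nsmul_eq_mul, hq]
  congr 1
  ring

theorem cs_mul {K : Type*} [Field K] {ψ : AddChar (ZMod p) K} (hψ : ψ.IsPrimitive) (f : ZMod p → ℤ)
    {n L : ℤ} (h0 : ∑ i, f i * f i = n + L) (hL : ∀ d : ZMod p, d ≠ 0 → ∑ i, f (i + d) * f i = L)
    {j : ZMod p} (hj : j ≠ 0) : cs ψ f j * cs ψ f (-j) = (n : K) := by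
  classical
  have h1 : cs ψ f j * cs ψ f (-j) = ∑ d : ZMod p, (∑ i, f (i + d) * f i : ℤ) * ψ (d * j) := by
    unfold cs
    rw [sum_mul_sum, sum_comm]
    have h2 : ∀ i' : ZMod p, ∑ i, ((f i : K) * ψ (i * j)) * ((f i' : K) * ψ (i' * -j)) =
        ∑ d : ZMod p, ((f (i' + d) * f i' : ℤ) : K) * ψ (d * j) := by
      intro i'
      rw [← Equiv.sum_comp (Equiv.addLeft i') fun i => ((f i : K) * ψ (i * j)) * ((f i' : K) * ψ (i' * -j))]
      refine sum_congr rfl fun d _ => ?_
      simp only [Equiv.coe_addLeft]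
      push_cast
      have h3 : ψ ((i' + d) * j) * ψ (i' * -j) = ψ (d * j) := by
        rw [← AddChar.map_add_eq_mul]
        congr 1
        ring
      rw [← h3]
      ring
    rw [sum_congr rfl fun i' _ => h2 i', sum_comm]
    refine sum_congr rfl fun d _ => ?_
    rw [← sum_mul]
    push_cast
    rfl
  rw [h1]
  have h2 : ∀ d : ZMod p, ((∑ i, f (i + d) * f i : ℤ) : K) * ψ (d * j) =
      (if d = 0 then (n : K) else 0) + (L : K) * ψ (d * j) := by
    intro d
    by_cases hd : d = 0
    · subst hd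
      simp only [add_zero, h0, if_true, zero_mul, AddChar.map_zero_eq_one, mul_one]
      push_cast
      ring
    · rw [hL d hd, if_neg hd, zero_add]
  rw [sum_congr rfl fun d _ => h2 d, sum_add_distrib, ← mul_sum, AddChar.sum_mulShift j hψ, if_neg hj]
  simp

/-- if `q ∣ n` then `f` is constant modulo `q` -/
theorem corr_const (hpq : p ≠ q) (hq : (q : ZMod p) = -1) (f : ZMod p → ℤ) {n L : ℤ}
    (h0 : ∑ i, f i * f i = n + L) (hL : ∀ d : ZMod p, d ≠ 0 → ∑ i, f (i + d) * f i = L)
    (hn : (q : ℤ) ∣ n) (i i' : ZMod p) : (q : ℤ) ∣ f i - f i' := by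
  classical
  let K := AlgebraicClosure (ZMod q)
  have : CharP K q := charP_of_injective_algebraMap (algebraMap (ZMod q) K).injective q
  have : NeZero ((p : ℕ) : K) := ⟨by
    intro h
    have h1 := (CharP.cast_eq_zero_iff K q p).1 h
    exact hpq ((Nat.prime_dvd_prime_iff_eq (Fact.out : q.Prime) (Fact.out : p.Prime)).1 h1).symm⟩
  obtain ⟨ζ, hζ⟩ : ∃ ζ : K, IsPrimitiveRoot ζ p := by
    exact (HasEnoughRootsOfUnity.exists_primitiveRoot K p)
  set ψ : AddChar (ZMod p) K := AddChar.zmodChar p hζ.pow_eq_one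
  have hψ : ψ.IsPrimitive := AddChar.zmodChar_primitive_of_primitive_root p hζ
  have hn0 : (n : K) = 0 := by
    obtain ⟨m, hm⟩ := hn
    rw [hm, Int.cast_mul, Int.cast_natCast, CharP.cast_eq_zero K q, zero_mul]
  have hF : ∀ j : ZMod p, j ≠ 0 → cs ψ f j = 0 := by
    intro j hj
    have h1 := cs_mul hψ f h0 hL hj
    rw [← cs_frob ψ f j hq, hn0, ← pow_succ'] at h1
    exact pow_eq_zero_iff (by omega) |>.1 h1
  have hinv : ∀ i : ZMod p, (p : K) * (f i : K) = cs ψ f 0 := by
    intro i
    have h1 : ∑ j, cs ψ f j * ψ (-i * j) = (p : K) * (f i : K) := by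
      have h2 : ∀ j : ZMod p, cs ψ f j * ψ (-i * j) = ∑ i', (f i' : K) * ψ (j * (i' - i)) := by
        intro j
        unfold cs
        rw [sum_mul]
        refine sum_congr rfl fun i' _ => ?_
        rw [mul_assoc, ← AddChar.map_add_eq_mul]
        congr 2
        ring
      rw [sum_congr rfl fun j _ => h2 j, sum_comm]
      have h3 : ∀ i' : ZMod p, ∑ j, (f i' : K) * ψ (j * (i' - i)) = if i' = i then (p : K) * (f i : K) else 0 := by
        intro i'
        rw [← mul_sum, AddChar.sum_mulShift (i' - i) hψ]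
        by_cases h4 : i' = i
        · subst h4
          simp [ZMod.card, mul_comm]
        · rw [if_neg (sub_ne_zero.2 h4), if_neg h4]
          simp
      rw [sum_congr rfl fun i' _ => h3 i']
      simp
    rw [← h1, Finset.sum_eq_single 0]
    · simp
    · intro j _ hj
      rw [hF j hj, zero_mul]
    · simp
  have h5 : (f i : K) = f i' := by
    have h6 := (hinv i).trans (hinv i').symm
    exact mul_left_cancel₀ (NeZero.ne ((p : ℕ) : K)) h6
  have h7 : ((f i - f i' : ℤ) : K) = 0 := by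
    push_cast
    rw [h5, sub_self]
  exact (CharP.intCast_eq_zero_iff K q _).1 h7

/-- `q ^ 2 ∣ n` -/
theorem corr_sq (hq2 : q ≠ 2) (hpq : p ≠ q) (hq : (q : ZMod p) = -1) (f : ZMod p → ℤ) {n L : ℤ}
    (h0 : ∑ i, f i * f i = n + L) (hL : ∀ d : ZMod p, d ≠ 0 → ∑ i, f (i + d) * f i = L)
    (hn : (q : ℤ) ∣ n) : (q : ℤ) ^ 2 ∣ n := by
  have h1 := corr_const hpq hq f h0 hL hn
  have h2 : ∑ i, (f (i + 1) - f i) ^ 2 = 2 * n := by
    have h3 : ∑ i, f (i + 1) * f (i + 1) = n + L := by
      rw [← h0]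
      exact Equiv.sum_comp (Equiv.addRight (1 : ZMod p)) fun i => f i * f i
    have h4 := hL 1 one_ne_zero
    calc ∑ i, (f (i + 1) - f i) ^ 2 = ∑ i, (f (i + 1) * f (i + 1) + f i * f i - 2 * (f (i + 1) * f i)) := by
          refine sum_congr rfl fun i _ => ?_
          ring
      _ = 2 * n := by
          rw [sum_sub_distrib, sum_add_distrib, ← mul_sum, h3, h0, h4]
          ring
  have h3 : (q : ℤ) ^ 2 ∣ 2 * n := by
    rw [← h2]
    exact dvd_sum fun i _ => pow_dvd_pow_of_dvd (h1 _ _) 2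
  have h4 : IsCoprime ((q : ℤ) ^ 2) 2 := by
    refine IsCoprime.pow_left ?_
    rw [show (2 : ℤ) = ((2 : ℕ) : ℤ) by norm_num, Nat.isCoprime_iff_coprime]
    exact (Nat.coprime_primes (Fact.out : q.Prime) Nat.prime_two).2 hq2
  exact h4.dvd_of_dvd_mul_left h3

end

/-- a finite abelian group whose order is divisible by `p` maps onto `ZMod p` -/
theorem exists_hom {G : Type*} [AddCommGroup G] [Fintype G] {p : ℕ} (hp : p.Prime)
    (hpG : p ∣ Fintype.card G) : ∃ π : G →+ ZMod p, Function.Surjective π := by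
  classical
  obtain ⟨ι, _, P, hP, e, ⟨φ⟩⟩ := AddCommGroup.equiv_directSum_zmod_of_finite G
  let ψ : G ≃+ ((i : ι) → ZMod (P i ^ e i)) := φ.trans (DirectSum.addEquivProd fun i => ZMod (P i ^ e i))
  have h1 : Fintype.card G = ∏ i, P i ^ e i := by
    rw [← Nat.card_eq_fintype_card, Nat.card_congr ψ.toEquiv, Nat.card_pi]
    exact prod_congr rfl fun i _ => Nat.card_zmod _
  rw [h1, hp.prime.dvd_finsetProd_iff] at hpG
  obtain ⟨i, _, hi⟩ := hpG
  have h2 : p ∣ P i := hp.dvd_of_dvd_pow hi
  let c : ZMod (P i ^ e i) →+ ZMod p := (ZMod.castHom hi (ZMod p)).toAddMonoidHom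
  refine ⟨(c.comp (Pi.evalAddMonoidHom _ i)).comp ψ.toAddMonoidHom, ?_⟩
  intro y
  obtain ⟨x, hx⟩ := ZMod.castHom_surjective hi y
  obtain ⟨g, hg⟩ := ψ.surjective (Pi.single i x)
  refine ⟨g, ?_⟩
  show ZMod.castHom hi (ZMod p) ((ψ g) i) = y
  rw [hg, Pi.single_eq_same, hx]

/-- a finite nilpotent group whose order is divisible by `p` maps onto the group of order `p` -/
theorem exists_hom_nil {G : Type*} [Group G] [Fintype G] [Group.IsNilpotent G] {p : ℕ} (hp : p.Prime)
    (hpG : p ∣ Fintype.card G) : ∃ π : G →* Multiplicative (ZMod p), Function.Surjective π := by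
  classical
  have : Fact p.Prime := ⟨hp⟩
  obtain ⟨e⟩ := ((Group.isNilpotent_of_finite_tfae (G := G)).out 0 4 rfl rfl).1 ‹_›
  have hpc : p ∣ Nat.card G := by rwa [Nat.card_eq_fintype_card]
  have hmem : p ∈ (Nat.card G).primeFactors := Nat.mem_primeFactors.2 ⟨hp, hpc, Nat.card_pos.ne'⟩
  let P : Sylow p G := default
  let f : G →* (P : Subgroup G) :=
    ((Pi.evalMonoidHom (fun Q : Sylow p G => ((Q : Subgroup G) : Type _)) P).comp
      (Pi.evalMonoidHom (fun r : (Nat.card G).primeFactors => ∀ Q : Sylow r G, ((Q : Subgroup G) : Type _))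
        ⟨p, hmem⟩)).comp e.symm.toMonoidHom
  have hf : Function.Surjective f := by
    intro y
    refine ⟨e (Pi.mulSingle ⟨p, hmem⟩ (Pi.mulSingle P y)), ?_⟩
    simp [f]
  have hPn : Nontrivial (P : Subgroup G) := by
    rw [← Finite.one_lt_card_iff_nontrivial]
    have h1 := P.dvd_card_of_dvd_card hpc
    exact (hp.one_lt).trans_le (Nat.le_of_dvd Nat.card_pos h1)
  have hPp : IsPGroup p (P : Subgroup G) := P.isPGroup'
  have : Group.IsNilpotent (P : Subgroup G) := hPp.isNilpotent
  have hlt : commutator (P : Subgroup G) < ⊤ := Group.IsSolvable.commutator_lt_top_of_nontrivial _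
  have hA : Nontrivial (Abelianization (P : Subgroup G)) := by
    exact QuotientGroup.nontrivial_iff.2 hlt.ne
  have hAp : IsPGroup p (Abelianization (P : Subgroup G)) := hPp.to_quotient _
  have hcA : p ∣ Fintype.card (Additive (Abelianization (P : Subgroup G))) := by
    rw [← Nat.card_eq_fintype_card, Nat.card_congr Additive.toMul]
    rcases hAp.card_eq_or_dvd with h1 | h1
    · have h2 := Finite.one_lt_card_iff_nontrivial.2 hA
      omega
    · exact h1
  obtain ⟨g, hg⟩ := exists_hom hp hcA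
  refine ⟨MonoidHom.mk' (fun c => Multiplicative.ofAdd (g (Additive.ofMul (Abelianization.of (f c))))) ?_, ?_⟩
  · intro a b
    simp only [map_mul, ofMul_mul, map_add, ofAdd_add]
  · intro y
    obtain ⟨a, ha⟩ := hg (Multiplicative.toAdd y)
    obtain ⟨b, hb⟩ := QuotientGroup.mk_surjective (Additive.toMul a)
    obtain ⟨c, hc⟩ := hf b
    refine ⟨c, ?_⟩
    have h1 : Additive.ofMul (Abelianization.of (f c)) = a := by
      rw [hc]
      exact hb
    show Multiplicative.ofAdd (g (Additive.ofMul (Abelianization.of (f c)))) = y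
    rw [h1, ha, ofAdd_toAdd]

/-- the fibres of a surjective homomorphism have the same size -/
theorem card_fiber {G : Type*} [Group G] [Fintype G] [DecidableEq G] {p : ℕ} {π : G → ZMod p}
    (hmul : ∀ a b, π (a * b) = π a + π b) (hπ : Function.Surjective π) (d : ZMod p) :
    (univ.filter fun g : G => π g = d).card = (univ.filter fun g : G => π g = 0).card := by
  obtain ⟨g, hg⟩ := hπ d
  symm
  refine card_bij (fun x _ => x * g) ?_ ?_ ?_
  · intro x hx
    simp only [mem_filter, mem_univ, true_and] at hx ⊢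
    rw [hmul, hx, hg, zero_add]
  · intro x _ y _ h
    exact mul_right_cancel h
  · intro y hy
    simp only [mem_filter, mem_univ, true_and] at hy
    refine ⟨y * g⁻¹, ?_, by group⟩
    simp only [mem_filter, mem_univ, true_and]
    have h1 := hmul (y * g⁻¹) g
    rw [show y * g⁻¹ * g = y by group, hy, hg] at h1
    exact left_eq_add.1 (h1.trans (add_comm _ _)) 

/-- the pairs with quotient `1` -/
theorem card_diag {G : Type*} [Group G] [DecidableEq G] (D : Finset G) :
    ((D ×ˢ D).filter (fun x => x.1 * x.2⁻¹ = 1)).card = D.card := by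
  refine (card_bij (fun a _ => (a, a)) ?_ ?_ ?_).symm
  · intro a ha
    simp [ha]
  · intro a _ b _ h
    exact (Prod.mk.inj h).1
  · rintro ⟨a, b⟩ h
    simp only [mem_filter, mem_product] at h
    have h1 : a = b := mul_inv_eq_one.1 h.2
    exact ⟨a, h.1.1, by rw [← h1]⟩

/-- **Mann's test at the primes `q ≡ -1 mod p`.** -/
theorem mann {G : Type*} [Group G] [Fintype G] [DecidableEq G] [Group.IsNilpotent G] {p q : ℕ}
    (hp : p.Prime) (hq : q.Prime) (hq2 : q ≠ 2) (hpq : p ≠ q) (hqp : (q : ZMod p) = -1)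
    (hpG : p ∣ Fintype.card G) (D : Finset G) (lam : ℕ)
    (hrep : ∀ g : G, g ≠ 1 → ((D ×ˢ D).filter (fun x => x.1 * x.2⁻¹ = g)).card = lam) {n : ℤ}
    (hn : n = (D.card : ℤ) - lam) (hqn : (q : ℤ) ∣ n) : (q : ℤ) ^ 2 ∣ n := by
  classical
  have : Fact p.Prime := ⟨hp⟩
  have : Fact q.Prime := ⟨hq⟩
  obtain ⟨π', hπ'⟩ := exists_hom_nil hp hpG
  set π : G → ZMod p := fun g => Multiplicative.toAdd (π' g) with hπdef
  have hmul : ∀ a b, π (a * b) = π a + π b := by
    intro a b
    simp [hπdef]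
  have hone : π 1 = 0 := by simp [hπdef]
  have hinv : ∀ a, π a⁻¹ = -π a := by
    intro a
    simp [hπdef]
  have hπ : Function.Surjective π := by
    intro y
    obtain ⟨g, hg⟩ := hπ' (Multiplicative.ofAdd y)
    exact ⟨g, by simp [hπdef, hg]⟩
  set m : ℕ := (univ.filter fun g : G => π g = 0).card with hm
  set f : ZMod p → ℤ := fun i => ((D.filter fun a => π a = i).card : ℤ) with hf
  have h0' := card_diag D
  have key : ∀ d : ZMod p, ∑ i, f (i + d) * f i =
      ∑ g ∈ univ.filter (fun g : G => π g = d), (((D ×ˢ D).filter (fun x => x.1 * x.2⁻¹ = g)).card : ℤ) := by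
    intro d
    have h1 : ((D ×ˢ D).filter (fun x => π x.1 = π x.2 + d)).card =
        ∑ g ∈ univ.filter (fun g : G => π g = d), ((D ×ˢ D).filter (fun x => x.1 * x.2⁻¹ = g)).card := by
      rw [← card_biUnion]
      · congr 1
        ext x
        simp only [mem_filter, mem_biUnion, mem_univ, true_and]
        constructor
        · rintro ⟨h1, h2⟩
          exact ⟨x.1 * x.2⁻¹, by rw [hmul, hinv, h2]; abel, h1, rfl⟩
        · rintro ⟨g, h1, h2, h3⟩
          refine ⟨h2, ?_⟩
          rw [← h1, ← h3, hmul, hinv]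
          abel
      · intro g _ g' _ hne
        rw [Function.onFun, disjoint_left]
        intro x hx hx'
        simp only [mem_filter] at hx hx'
        exact hne (hx.2.symm.trans hx'.2)
    have h2 : ((D ×ˢ D).filter (fun x => π x.1 = π x.2 + d)).card =
        ∑ i : ZMod p, ((D.filter fun a => π a = i + d) ×ˢ (D.filter fun a => π a = i)).card := by
      rw [← card_biUnion]
      · congr 1
        ext x
        simp only [mem_filter, mem_biUnion, mem_univ, true_and, mem_product]
        constructor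
        · rintro ⟨⟨h1, h2⟩, h3⟩
          exact ⟨π x.2, ⟨h1, h3⟩, h2, rfl⟩
        · rintro ⟨i, ⟨h1, h2⟩, h3, h4⟩
          exact ⟨⟨h1, h3⟩, by rw [h2, h4]⟩
      · intro i _ i' _ hne
        rw [Function.onFun, disjoint_left]
        intro x hx hx'
        simp only [mem_filter, mem_product] at hx hx'
        exact hne (hx.2.2.symm.trans hx'.2.2)
    rw [← Nat.cast_sum, ← h1, h2]
    push_cast
    refine sum_congr rfl fun i _ => ?_
    rw [card_product]
    push_cast
    rfl
  have hL : ∀ d : ZMod p, d ≠ 0 → ∑ i, f (i + d) * f i = (lam : ℤ) * m := by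
    intro d hd
    rw [key d, sum_congr rfl (g := fun _ => (lam : ℤ)), sum_const, card_fiber hmul hπ d, nsmul_eq_mul, mul_comm]
    intro g hg
    simp only [mem_filter, mem_univ, true_and] at hg
    rw [hrep g]
    rintro rfl
    exact hd (by rw [← hg, hone])
  have h0 : ∑ i, f i * f i = n + (lam : ℤ) * m := by
    have h1 := key 0
    simp only [add_zero] at h1
    rw [h1, ← add_sum_erase _ _ (show (1 : G) ∈ univ.filter (fun g : G => π g = 0) by simp [hone]), h0',
      sum_congr rfl (g := fun _ => (lam : ℤ)), sum_const, card_erase_of_mem (by simp [hone]), nsmul_eq_mul, hn]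
    · have h2 : 1 ≤ (univ.filter fun g : G => π g = 0).card := card_pos.2 ⟨1, by simp [hone]⟩
      rw [← hm] at h2 ⊢
      push_cast [Nat.cast_sub h2]
      ring
    · intro g hg
      rw [hrep g (ne_of_mem_erase hg)]
  exact corr_sq hq2 hpq hqp f h0 hL hqn

/-- a prime divisor of the order of the group and of `n` divides `n` twice -/
theorem sq_dvd {G : Type*} [Group G] [Fintype G] [DecidableEq G] {p : ℕ} (hp : p.Prime)
    (hpG : p ∣ Fintype.card G) (D : Finset G) (lam : ℕ)
    (hrep : ∀ g : G, g ≠ 1 → ((D ×ˢ D).filter (fun x => x.1 * x.2⁻¹ = g)).card = lam) {n : ℤ}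
    (hn : n = (D.card : ℤ) - lam) (hpn : (p : ℤ) ∣ n) : (p : ℤ) ^ 2 ∣ n := by
  classical
  have h1 : (D.card : ℤ) ^ 2 = lam * Fintype.card G + n := by
    have h0' := card_diag D
    have h2 : (D ×ˢ D).card = ∑ g : G, ((D ×ˢ D).filter (fun x => x.1 * x.2⁻¹ = g)).card :=
      card_eq_sum_card_fiberwise fun x _ => mem_univ _
    rw [← add_sum_erase _ _ (mem_univ (1 : G)), h0', sum_congr rfl (g := fun _ => lam)
      (fun g hg => hrep g (ne_of_mem_erase hg)), sum_const, card_erase_of_mem (mem_univ _), card_univ,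
      card_product, smul_eq_mul] at h2
    have h3 : 1 ≤ Fintype.card G := Fintype.card_pos
    have h4 : (D.card : ℤ) * D.card = D.card + (Fintype.card G - 1) * lam := by
      have := congrArg (fun t : ℕ => (t : ℤ)) h2
      push_cast [Nat.cast_sub h3] at this
      exact this
    rw [hn, sq, h4]
    ring
  obtain ⟨a, ha⟩ := hpG
  have hpG' : (p : ℤ) ∣ Fintype.card G := ⟨a, by exact_mod_cast ha⟩
  have h2 : (p : ℤ) ∣ (D.card : ℤ) ^ 2 := by
    rw [h1]
    exact dvd_add (hpG'.mul_left _) hpn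
  have h3 : (p : ℤ) ∣ (D.card : ℤ) := (Nat.prime_iff_prime_int.1 hp).dvd_of_dvd_pow h2
  have h4 : (p : ℤ) ∣ (lam : ℤ) := by
    have : (lam : ℤ) = D.card - n := by rw [hn]; ring
    rw [this]
    exact dvd_sub h3 hpn
  have h5 : n = (D.card : ℤ) ^ 2 - lam * Fintype.card G := by rw [h1]; ring
  rw [h5]
  refine dvd_sub (pow_dvd_pow_of_dvd h3 2) ?_
  rw [sq]
  exact mul_dvd_mul h4 hpG'

end Pool.Agent.Helper88.AAO
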